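import Mathlib
import Pool.Agent.Helper233.Cen.M7

/-!
# Locally residually finite `p`-groups containing a special element of order `p` have a centre

`p` any prime, `G` a `p`-group all of whose finitely generated subgroups are residually finite (for
instance `G` locally finite, or `G` residually finite), `a` of order `p` with properties 1 and 2.
Then `Z(G) ≠ 1`.
-/

set_option autoImplicit false

namespace Pool.Agent.Results.MP_7d7b85_al.AllLocallyResFinite

open Pool.Agent.Helper233.Cen

/-- every finitely generated subgroup is residually finite -/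
def LocRF (G : Type) [Group G] : Prop :=
  ∀ S : Set G, S.Finite → ∀ x : Subgroup.closure S, x ≠ 1 →
    ∃ N : Subgroup (Subgroup.closure S), N.Normal ∧ N.FiniteIndex ∧ x ∉ N

/-- locally finite groups satisfy `LocRF` -/
theorem locRF_of_locFinite (G : Type) [Group G]
    (h : ∀ S : Set G, S.Finite → ((Subgroup.closure S : Subgroup G) : Set G).Finite) : LocRF G := by
  intro S hS x hx
  have : Finite (Subgroup.closure S) := (h S hS).to_subtype
  exact ⟨⊥, inferInstance, inferInstance, fun h' => hx (Subgroup.mem_bot.1 h')⟩

/-- residually finite groups satisfy `LocRF` -/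
theorem locRF_of_residFinite (G : Type) [Group G]
    (h : ∀ x : G, x ≠ 1 → ∃ N : Subgroup G, N.Normal ∧ N.FiniteIndex ∧ x ∉ N) : LocRF G := by
  intro S hS x hx
  obtain ⟨N, hN1, hN2, hN3⟩ := h (x : G) (fun h' => hx (Subtype.ext h'))
  exact ⟨N.subgroupOf _, inferInstance, inferInstance, fun h' => hN3 (Subgroup.mem_subgroupOf.1 h')⟩

theorem result :
    ∀ (p : ℕ), p.Prime → ∀ (G : Type) [Group G], IsPGroup p G → LocRF G →
      ∀ a : G, orderOf a = p →
        (∀ g : G, ((Subgroup.closure ({a, g⁻¹ * a * g} : Set G) : Subgroup G) : Set G).Finite) →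
        ({x : G | Commute x a} ∩ {x : G | IsConj a x}).Finite →
        Subgroup.center G ≠ ⊥ := by
  intro p hp G _ hG hl a ha h1 h2
  have : Fact p.Prime := ⟨hp⟩
  have h1' : ∀ g : G, Finite (Subgroup.closure ({a, cj a g} : Set G)) := fun g => (h1 g).to_subtype
  exact main_locFin hG a ha (locFin_of_locRF hG a h1' h2 hl) h2

end Pool.Agent.Results.MP_7d7b85_al.AllLocallyResFinite
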