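import Mathlib
import Pool.Agent.Helper233.Cen.L6

/-!
# Centres of `p`-groups containing a special element of order `p`: residually finite `K`

`p` any prime, `G` any `p`-group (not assumed locally finite), `a` of order `p` with properties 1
and 2.  If the normal closure `K` of `a` is residually finite, then `a` has only finitely many
conjugates in `K` and `Z(G) ≠ 1`.
-/

set_option autoImplicit false

namespace Pool.Agent.Results.MP_7d7b85_al.KResiduallyFinite

open Pool.Agent.Helper233.Cen

/-- the normal closure of `a` in `G` -/
abbrev K {G : Type} [Group G] (a : G) : Subgroup G := Subgroup.normalClosure ({a} : Set G)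

theorem result :
    ∀ (p : ℕ), p.Prime → ∀ (G : Type) [Group G], IsPGroup p G →
      ∀ a : G, orderOf a = p →
        (∀ g : G, ((Subgroup.closure ({a, g⁻¹ * a * g} : Set G) : Subgroup G) : Set G).Finite) →
        ({x : G | Commute x a} ∩ {x : G | IsConj a x}).Finite →
        (∀ x : K a, x ≠ 1 → ∃ N : Subgroup (K a), N.Normal ∧ N.FiniteIndex ∧ x ∉ N) →
        Subgroup.center G ≠ ⊥ := by
  intro p hp G _ hG a ha h1 h2 hrf
  have : Fact p.Prime := ⟨hp⟩
  have ha1 : a ≠ 1 := by
    rintro rfl
    rw [orderOf_one] at ha
    exact hp.one_lt.ne ha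
  exact case_rfK hG a ha1 (fun g => (h1 g).to_subtype) h2 hrf

end Pool.Agent.Results.MP_7d7b85_al.KResiduallyFinite
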