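import Mathlib
import Pool.Agent.Helper233.Cen.M7

/-!
# A special element with finite orbits under finitely generated subgroups

`p` any prime, `G` a `p`-group, `a` of order `p` with `C_G(a) ∩ a^G` finite, such that `a` has only
finitely many conjugates under each finitely generated subgroup of `G`.  Then `Z(G) ≠ 1`.
-/

set_option autoImplicit false

namespace Pool.Agent.Results.MP_7d7b85_al.LocallyFiniteOrbits

open Pool.Agent.Helper233.Cen

/-- the hypothesis on orbits holds in every locally finite group -/
theorem orbits_of_locFinite (G : Type) [Group G]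
    (h : ∀ S : Set G, S.Finite → ((Subgroup.closure S : Subgroup G) : Set G).Finite) (a : G) :
    ∀ S : Set G, S.Finite → {x : G | ∃ f ∈ Subgroup.closure S, x = f⁻¹ * a * f}.Finite := by
  intro S hS
  refine ((h S hS).image (fun f => f⁻¹ * a * f)).subset ?_
  rintro x ⟨f, hf, rfl⟩
  exact ⟨f, hf, rfl⟩

theorem result :
    ∀ (p : ℕ), p.Prime → ∀ (G : Type) [Group G], IsPGroup p G →
      ∀ a : G, orderOf a = p →
        (∀ S : Set G, S.Finite →
          {x : G | ∃ f ∈ Subgroup.closure S, x = f⁻¹ * a * f}.Finite) →
        ({x : G | Commute x a} ∩ {x : G | IsConj a x}).Finite →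
        Subgroup.center G ≠ ⊥ := by
  intro p hp G _ hG a ha h1 h2
  have : Fact p.Prime := ⟨hp⟩
  exact main_locFin hG a ha h1 h2

end Pool.Agent.Results.MP_7d7b85_al.LocallyFiniteOrbits
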