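import Mathlib
import Pool.Agent.Helper233.Cen.L4

/-!
# Centres of `p`-groups containing a special element of order `p`: six classes

`p` any prime, `G` a (possibly infinite) `p`-group, `a` of order `p` with (1) `⟨a, a^g⟩` finite for all
`g`, (2) `C_G(a) ∩ a^G` finite.  Then `Z(G) ≠ 1` as soon as one of six conditions on `G` or on the
normal closure `K` of `a` holds.
-/

set_option autoImplicit false

namespace Pool.Agent.Results.MP_7d7b85_al.SixClasses

open Pool.Agent.Helper233.Cen
open scoped commutatorElement

/-- `K a` is the normal closure of `a` in `G`: the subgroup generated by all conjugates of `a`. -/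
def K {G : Type} [Group G] (a : G) : Subgroup G := Subgroup.normalClosure ({a} : Set G)

/-- every non-identity element lies outside some normal subgroup of finite index -/
def ResidFinite (G : Type) [Group G] : Prop :=
  ∀ x : G, x ≠ 1 → ∃ N : Subgroup G, N.Normal ∧ N.FiniteIndex ∧ x ∉ N

/-- every finitely generated subgroup is finite -/
def LocFinite (G : Type) [Group G] : Prop :=
  ∀ S : Set G, S.Finite → ((Subgroup.closure S : Subgroup G) : Set G).Finite

/-- `K` is metabelian: its commutator subgroup is abelian -/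
def KMetabelian {G : Type} [Group G] (a : G) : Prop :=
  ∀ x ∈ ⁅K a, K a⁆, ∀ y ∈ ⁅K a, K a⁆, x * y = y * x

/-- the abelianization `K/K'` is finite -/
def KFiniteAb {G : Type} [Group G] (a : G) : Prop :=
  (⁅K a, K a⁆.subgroupOf (K a)).FiniteIndex

/-- `K` contains a quasicyclic (Pruefer) `p`-subgroup, given by a sequence of `p`-th roots of an
element `x 0 ≠ 1` -/
def KHasQuasicyclic {G : Type} [Group G] (p : ℕ) (a : G) : Prop :=
  ∃ x : ℕ → G, (∀ n, x n ∈ K a) ∧ x 0 ≠ 1 ∧ ∀ n, x (n + 1) ^ p = x n

theorem result :
    ∀ (p : ℕ), p.Prime → ∀ (G : Type) [Group G], IsPGroup p G →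
      ∀ a : G, orderOf a = p →
        (∀ g : G, ((Subgroup.closure ({a, g⁻¹ * a * g} : Set G) : Subgroup G) : Set G).Finite) →
        ({x : G | Commute x a} ∩ {x : G | IsConj a x}).Finite →
        (ResidFinite G ∨
          KMetabelian a ∨
          Group.IsNilpotent (K a) ∨
          {x : G | ∃ k ∈ K a, x = k⁻¹ * a * k}.Finite ∨
          (LocFinite G ∧ KFiniteAb a) ∨
          (LocFinite G ∧ ¬ KHasQuasicyclic p a)) →
        Subgroup.center G ≠ ⊥ := by
  intro p hp G _ hG a ha h1 h2 hcase
  have : Fact p.Prime := ⟨hp⟩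
  have ha1 : a ≠ 1 := by
    rintro rfl
    rw [orderOf_one] at ha
    exact hp.one_lt.ne ha
  have h2' : (CC a).Finite := h2
  have h1' : ∀ g : G, Finite (Subgroup.closure ({a, cj a g} : Set G)) := fun g => (h1 g).to_subtype
  rcases hcase with h | h | h | h | ⟨hl, h⟩ | ⟨hl, h⟩
  · exact case_rf hG a ha1 h1' h2' h
  · have : (⁅K a, K a⁆ : Subgroup G).Normal := by
      have : (K a).Normal := Subgroup.normalClosure_normal
      infer_instance
    refine case_meta ⁅K a, K a⁆ h a hG ha h2' ?_
    intro g
    have e : a⁻¹ * cj a (cj a g) = ⁅a⁻¹, (cj a g)⁻¹⁆ := by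
      rw [commutatorElement_def]; unfold cj; group
    rw [e]
    have haK : a ∈ K a := Subgroup.subset_normalClosure rfl
    refine Subgroup.commutator_mem_commutator (inv_mem haK) (inv_mem ?_)
    have := (Subgroup.normalClosure_normal : (Subgroup.normalClosure ({a} : Set G)).Normal).conj_mem
      a haK g⁻¹
    rw [inv_inv] at this
    exact this
  · exact case_nilp hG a ha1 h2' h
  · exact case_orbit hG a ha1 h2' h
  · exact case_lf hG a ha1 (fun S hS => (hl S hS).to_subtype) h2' h
  · exact case_red hG a ha (fun S hS => (hl S hS).to_subtype) h2' h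

end Pool.Agent.Results.MP_7d7b85_al.SixClasses
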